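import Pool.Agent.W200.MR.Stm

/-! # t_DEb -/

set_option autoImplicit false

namespace Pool.Agent.W822.MR.DEb

open Finset Pool.Agent.W200.MR

theorem sum_sqrt (M : ℕ) : ∑ d ∈ Icc 1 M, 1 / Real.sqrt d ≤ 2 * Real.sqrt M := by
  induction M with
  | zero => simp
  | succ M ih =>
    rw [Finset.sum_Icc_succ_top (by omega)]
    have h1 : 0 < Real.sqrt ((M + 1 : ℕ) : ℝ) := Real.sqrt_pos.2 (by positivity)
    have h2 : Real.sqrt ((M + 1 : ℕ) : ℝ) ^ 2 = M + 1 := by
      rw [Real.sq_sqrt (by positivity)]; push_cast; ring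
    have h3 : Real.sqrt (M : ℝ) ^ 2 = M := Real.sq_sqrt (by positivity)
    have h0 : 0 ≤ Real.sqrt (M : ℝ) := Real.sqrt_nonneg _
    have h4 : Real.sqrt (M : ℝ) ≤ Real.sqrt ((M + 1 : ℕ) : ℝ) :=
      Real.sqrt_le_sqrt (by push_cast; linarith)
    have h5 : 1 / Real.sqrt ((M + 1 : ℕ) : ℝ) ≤
        2 * Real.sqrt ((M + 1 : ℕ) : ℝ) - 2 * Real.sqrt (M : ℝ) := by
      rw [div_le_iff₀ h1]
      nlinarith
    linarith

theorem log_le {y : ℝ} (hy : 1 ≤ y) : 1 + Real.log y ≤ 2 * Real.sqrt y := by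
  have h1 : 0 < Real.sqrt y := Real.sqrt_pos.2 (by linarith)
  have h2 : Real.log y = 2 * Real.log (Real.sqrt y) := by
    rw [Real.log_sqrt (by linarith)]; ring
  have h3 := Real.log_le_sub_one_of_pos h1
  linarith

theorem t_DEb : S_RO → S_DEb := by
  classical
  intro hRO K κ hK hκ
  set L : ℝ := 8 * K / κ + 1 with hL
  have hL1 : 1 ≤ L := by
    have : 0 ≤ 8 * K / κ := by positivity
    linarith
  have hL0 : 0 < L := by linarith
  obtain ⟨T0, hT0⟩ := hRO (κ / (4 * K * L + 4)) (by positivity)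
  refine ⟨max T0 1, fun T hT N hN => ?_⟩
  have hTT : T0 ≤ T := le_trans (le_max_left _ _) hT
  have hN1 : 1 ≤ N := le_trans (le_trans (le_max_right _ _) hT) hN
  have hcard := hT0 T hTT N hN
  have hNr : (1 : ℝ) ≤ N := by exact_mod_cast hN1
  have hN0 : (0 : ℝ) < N := by linarith
  set M : ℕ := ⌊(N : ℝ) / L ^ 2⌋₊ with hM
  have hMle : (M : ℝ) ≤ N / L ^ 2 := Nat.floor_le (by positivity)
  have hMN : M ≤ N := by
    have h1 : (N : ℝ) / L ^ 2 ≤ N := div_le_self hN0.le (one_le_pow₀ hL1)
    exact_mod_cast hMle.trans h1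
  -- termwise bound
  have hterm : ∀ d ∈ (Icc 1 N).filter (fun d => Rough T d),
      K + K * Real.log ((N : ℝ) / d) ≤ 2 * K * L +
        (if d ≤ M then 2 * K * Real.sqrt N * (1 / Real.sqrt d) else 0) := by
    intro d hd
    rw [mem_filter, mem_Icc] at hd
    have hd0 : (0 : ℝ) < d := by exact_mod_cast hd.1.1
    have hdN : (d : ℝ) ≤ N := by exact_mod_cast hd.1.2
    have hy : 1 ≤ (N : ℝ) / d := by rw [le_div_iff₀ hd0]; linarith
    have h1 := log_le hy
    have h2 : K + K * Real.log ((N : ℝ) / d) ≤ 2 * K * Real.sqrt ((N : ℝ) / d) := by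
      nlinarith
    refine h2.trans ?_
    split_ifs with h
    · have h3 : Real.sqrt ((N : ℝ) / d) = Real.sqrt N * (1 / Real.sqrt d) := by
        rw [Real.sqrt_div hN0.le]; ring
      rw [h3]
      have h4 : 0 ≤ 2 * K * L := by positivity
      linarith [mul_assoc (2 * K) (Real.sqrt N) (1 / Real.sqrt (d : ℝ))]
    · have h3 : (N : ℝ) / L ^ 2 < d := by
        by_contra hcon
        push Not at hcon
        exact h (Nat.le_floor hcon)
      have h4 : (N : ℝ) / d ≤ L ^ 2 := by
        rw [div_lt_iff₀ (by positivity)] at h3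
        rw [div_le_iff₀ hd0]
        linarith
      have h5 : Real.sqrt ((N : ℝ) / d) ≤ L := by
        rw [show L = Real.sqrt (L ^ 2) from (Real.sqrt_sq hL0.le).symm]
        exact Real.sqrt_le_sqrt h4
      have h6 : 2 * K * Real.sqrt ((N : ℝ) / d) ≤ 2 * K * L :=
        mul_le_mul_of_nonneg_left h5 (by positivity)
      linarith
  refine (Finset.sum_le_sum hterm).trans ?_
  rw [Finset.sum_add_distrib, Finset.sum_const, nsmul_eq_mul]
  have hA : (((Icc 1 N).filter (fun d => Rough T d)).card : ℝ) * (2 * K * L) ≤ κ / 2 * N := by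
    calc _ ≤ (κ / (4 * K * L + 4) * N) * (2 * K * L) :=
          mul_le_mul_of_nonneg_right hcard (by positivity)
      _ = κ / 2 * N * ((4 * K * L) / (4 * K * L + 4)) := by ring
      _ ≤ κ / 2 * N * 1 := by
          refine mul_le_mul_of_nonneg_left ?_ (by positivity)
          rw [div_le_one (by positivity)]
          linarith
      _ = _ := mul_one _
  have hB : ∑ d ∈ (Icc 1 N).filter (fun d => Rough T d),
      (if d ≤ M then 2 * K * Real.sqrt N * (1 / Real.sqrt d) else 0) ≤ κ / 2 * N := by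
    rw [← Finset.sum_filter]
    have hsub : (((Icc 1 N).filter (fun d => Rough T d)).filter (fun d => d ≤ M)) ⊆ Icc 1 M := by
      intro d hd
      rw [mem_filter, mem_filter, mem_Icc] at hd
      rw [mem_Icc]
      exact ⟨hd.1.1.1, hd.2⟩
    refine (Finset.sum_le_sum_of_subset_of_nonneg hsub (fun d _ _ => by positivity)).trans ?_
    rw [← Finset.mul_sum]
    have h1 := sum_sqrt M
    have h2 : Real.sqrt M ≤ Real.sqrt N / L := by
      have h3 : Real.sqrt N / L = Real.sqrt (N / L ^ 2) := by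
        rw [Real.sqrt_div hN0.le, Real.sqrt_sq hL0.le]
      rw [h3]
      exact Real.sqrt_le_sqrt hMle
    calc 2 * K * Real.sqrt N * ∑ d ∈ Icc 1 M, 1 / Real.sqrt d
        ≤ 2 * K * Real.sqrt N * (2 * (Real.sqrt N / L)) :=
          mul_le_mul_of_nonneg_left (h1.trans (by linarith)) (by positivity)
      _ = 4 * K / L * (Real.sqrt N * Real.sqrt N) := by ring
      _ = 4 * K / L * N := by rw [Real.mul_self_sqrt hN0.le]
      _ ≤ κ / 2 * N := by
          refine mul_le_mul_of_nonneg_right ?_ hN0.le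
          rw [div_le_iff₀ hL0, hL]
          have : κ / 2 * (8 * K / κ + 1) = 4 * K + κ / 2 := by
            field_simp
            ring
          rw [this]
          linarith
  linarith

end Pool.Agent.W822.MR.DEb
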